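import Mathlib
import Pool.Agent.Q256.VM.Fin

set_option autoImplicit false

/-!
Points of the hyperplane `z_1 + … + z_(r+1) = 0` with small radical.
-/

namespace Pool.Agent.Q35.AV

open Finset
open Pool.Agent.Q256.VT Pool.Agent.Q256.VG
open Pool.Agent.H813R3.Voj (rho rho_pos)

/-- the vector `(v_1, …, v_r, -(v_1 + … + v_r))` -/
def vals {r : ℕ} (v : Fin r → ℤ) : Fin (r + 1) → ℤ := Fin.snoc v (-∑ i, v i)

/-- the logarithmic height of the point with the integral coordinates `z` -/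
noncomputable def hgt {k : ℕ} (z : Fin k → ℤ) : ℝ :=
  Real.log ((univ.sup fun i => (z i).natAbs : ℕ) : ℝ) -
    Real.log ((univ.gcd fun i => (z i).natAbs : ℕ) : ℝ)

/-- the sum of `log p` over the primes `p` at which the orders of the numbers `z i ≠ 0` are not all
equal -/
noncomputable def rad {k : ℕ} (z : Fin k → ℤ) : ℝ :=
  ∑ p ∈ (∏ i, z i).natAbs.primeFactors.filter
    (fun p => ∃ i j, padicValInt p (z i) ≠ padicValInt p (z j)), Real.log p

/-- the vectors for which `rad < κ * hgt`. -/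
def Bad {r : ℕ} (κ : ℝ) : Set (Fin r → ℤ) :=
  {v | (∀ i, vals v i ≠ 0) ∧ rad (vals v) < κ * hgt (vals v)}

theorem vals_castSucc {r : ℕ} (v : Fin r → ℤ) (i : Fin r) : vals v i.castSucc = v i := by
  unfold vals; rw [Fin.snoc_castSucc]

theorem vals_last {r : ℕ} (v : Fin r → ℤ) : vals v (Fin.last r) = -∑ i, v i := by
  unfold vals; rw [Fin.snoc_last]

theorem log_rho_le {r : ℕ} (z : Fin (r + 1) → ℤ) (hz : ∀ i, z i ≠ 0) (g : ℕ)
    (hg : g = univ.gcd fun i => (z i).natAbs) (x : Fin r → ℤ)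
    (hx : ∀ i, z i.castSucc = (g : ℤ) * x i) :
    Real.log (rho ∅ (∏ i, x i) : ℝ) ≤ rad z := by
  have hg0 : g ≠ 0 := by
    rintro rfl
    have h1 : (0 : ℕ) ∣ (z (Fin.last r)).natAbs := by
      conv_lhs => rw [hg]
      exact Finset.gcd_dvd (mem_univ _)
    exact hz (Fin.last r) (Int.natAbs_eq_zero.1 (zero_dvd_iff.1 h1))
  have hx0 : ∀ i, x i ≠ 0 := by
    intro i h
    apply hz i.castSucc
    rw [hx i, h, mul_zero]
  unfold rho rad
  push_cast
  rw [Real.log_prod]
  · refine sum_le_sum_of_subset_of_nonneg ?_ ?_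
    · intro p hp
      rw [sdiff_empty] at hp
      have hpp := Nat.prime_of_mem_primeFactors hp
      have hpd : (p : ℤ) ∣ ∏ i, x i := by
        rw [Int.natCast_dvd]
        exact Nat.dvd_of_mem_primeFactors hp
      have hpI : Prime (p : ℤ) := Nat.prime_iff_prime_int.1 hpp
      obtain ⟨i, -, hi⟩ := (hpI.dvd_finsetProd_iff _).1 hpd
      rw [mem_filter, Nat.mem_primeFactors]
      refine ⟨⟨hpp, ?_, ?_⟩, ?_⟩
      · rw [← Int.natCast_dvd]
        refine dvd_trans ?_ (dvd_prod_of_mem z (mem_univ i.castSucc))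
        rw [hx i]
        exact dvd_mul_of_dvd_right hi _
      · rw [Ne, Int.natAbs_eq_zero]
        exact prod_ne_zero_iff.2 (fun i _ => hz i)
      · -- some coordinate is divisible by the power of `p` in `g` only
        by_contra hcon
        push Not at hcon
        have := Fact.mk hpp
        have h1 : 1 ≤ padicValNat p (x i).natAbs :=
          one_le_padicValNat_of_dvd (Int.natAbs_ne_zero.2 (hx0 i)) (Int.natCast_dvd.1 hi)
        have h2 : padicValInt p (z i.castSucc) = padicValNat p g + padicValNat p (x i).natAbs := by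
          unfold padicValInt
          rw [hx i, Int.natAbs_mul, Int.natAbs_natCast,
            padicValNat.mul hg0 (Int.natAbs_ne_zero.2 (hx0 i))]
        have hall : ∀ j, p ^ (padicValNat p g + 1) ∣ (z j).natAbs := by
          intro j
          have h3 : padicValNat p (z j).natAbs = padicValInt p (z i.castSucc) :=
            hcon j i.castSucc
          refine dvd_trans (pow_dvd_pow p ?_) (pow_padicValNat_dvd (p := p) (n := (z j).natAbs))
          rw [h3, h2]
          omega
        have h4 : p ^ (padicValNat p g + 1) ∣ g := by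
          conv_rhs => rw [hg]
          exact Finset.dvd_gcd (fun j _ => hall j)
        exact pow_succ_padicValNat_not_dvd hg0 h4
    · intro p _ _
      exact Real.log_natCast_nonneg p
  · intro p hp
    rw [sdiff_empty] at hp
    exact_mod_cast (Nat.prime_of_mem_primeFactors hp).ne_zero

/-- the size of the last coordinate. -/
theorem sup_le {r : ℕ} (hr : 1 ≤ r) (v : Fin r → ℤ) (X : ℕ) (hX : ∀ i, |v i| ≤ X) :
    (univ.sup fun i => (vals v i).natAbs : ℕ) ≤ r * X := by
  refine Finset.sup_le fun i _ => ?_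
  refine Fin.lastCases ?_ (fun i => ?_) i
  · rw [vals_last, Int.natAbs_neg]
    have h1 : |∑ i, v i| ≤ ∑ i : Fin r, (X : ℤ) :=
      (abs_sum_le_sum_abs _ _).trans (sum_le_sum fun i _ => hX i)
    rw [sum_const, card_univ, Fintype.card_fin, nsmul_eq_mul, Int.abs_eq_natAbs] at h1
    exact_mod_cast h1
  · rw [vals_castSucc]
    have h1 := hX i
    rw [Int.abs_eq_natAbs] at h1
    have h2 : (v i).natAbs ≤ X := by exact_mod_cast h1
    exact h2.trans (Nat.le_mul_of_pos_left X (by omega))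

/-- the number of the vectors with small radical. -/
theorem card_bad (r : ℕ) (hr : 1 ≤ r) (κ : ℝ) (hκ : 1 ≤ κ) (η : ℝ) (hη : 0 < η) :
    ∃ C : ℝ, 0 < C ∧ ∀ X : ℕ, 1 ≤ X →
      (#(Vec (fun _ : Fin r => X) (Bad κ)) : ℝ) ≤ C * (X : ℝ) ^ (κ + η) := by
  classical
  have hη1 : 0 < η / (r + 1) := by positivity
  set η1 : ℝ := η / (r + 1) with hη1'
  obtain ⟨C, hC, htup⟩ := card_tup r ∅ η1 hη1
  have hs : Summable (fun g : ℕ => (g : ℝ) ^ (-(1 + η1))) :=
    Real.summable_nat_rpow.2 (by linarith)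
  set S2 : ℝ := ∑' g : ℕ, (g : ℝ) ^ (-(1 + η1)) with hS2
  have hS20 : 0 ≤ S2 := tsum_nonneg (fun g => by positivity)
  have hr0 : (0 : ℝ) < r := by exact_mod_cast hr
  refine ⟨C * (r : ℝ) ^ κ * (S2 + 1), by positivity, fun X hX => ?_⟩
  have hX0 : (0 : ℝ) < X := by exact_mod_cast hX
  -- the points for `g`
  let A : ℕ → Finset (Fin r → ℤ) := fun g =>
    Tup ∅ (fun _ => X) (((r : ℝ) * X) ^ κ * (g : ℝ) ^ (-κ))
  have hsub : Vec (fun _ : Fin r => X) (Bad κ) ⊆ (Icc 1 X).biUnion (fun g =>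
      (A g).image (fun x : Fin r → ℤ => (fun k => (g : ℤ) * x k))) := by
    intro v hv
    rw [mem_vec] at hv
    obtain ⟨hv1, hne, hlt⟩ := hv
    set g : ℕ := univ.gcd fun i => (vals v i).natAbs with hg
    have hgd : ∀ i, (g : ℤ) ∣ vals v i := by
      intro i
      rw [Int.natCast_dvd]
      exact Finset.gcd_dvd (mem_univ i)
    have hgv : ∀ i, (g : ℤ) ∣ v i := by
      intro i
      rw [← vals_castSucc v i]
      exact hgd _
    have hv0 : ∀ i, v i ≠ 0 := by
      intro i
      rw [← vals_castSucc v i]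
      exact hne _
    choose x hx using hgv
    have hg0 : g ≠ 0 := by
      intro h
      have h1 := hx ⟨0, by omega⟩
      rw [h] at h1
      exact hv0 ⟨0, by omega⟩ (by rw [h1]; simp)
    have hg1 : 1 ≤ g := Nat.one_le_iff_ne_zero.2 hg0
    have hgpos : (0 : ℝ) < g := by exact_mod_cast hg1
    have hx0 : ∀ i, x i ≠ 0 := by
      intro i h
      apply hv0 i
      rw [hx i, h, mul_zero]
    have habs : ∀ i, (g : ℤ) * |x i| ≤ X := by
      intro i
      have h1 := hv1 i
      rw [hx i, abs_mul, abs_of_nonneg (by positivity : (0 : ℤ) ≤ (g : ℤ))] at h1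
      exact h1
    rw [mem_biUnion]
    refine ⟨g, ?_, ?_⟩
    · rw [mem_Icc]
      refine ⟨hg1, ?_⟩
      have h1 := habs ⟨0, by omega⟩
      have h2 : 1 ≤ |x ⟨0, by omega⟩| := Int.one_le_abs (hx0 _)
      have h3 : (g : ℤ) ≤ X := by nlinarith
      exact_mod_cast h3
    · rw [mem_image]
      refine ⟨x, ?_, ?_⟩
      · change x ∈ Tup ∅ (fun _ => X) (((r : ℝ) * X) ^ κ * (g : ℝ) ^ (-κ))
        rw [Tup, mem_filter, Fintype.mem_piFinset]
        refine ⟨fun k => ?_, hx0, ?_⟩
        · rw [mem_Icc, ← abs_le]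
          have h1 := habs k
          have h2 : (1 : ℤ) ≤ g := by exact_mod_cast hg1
          have h3 := abs_nonneg (x k)
          nlinarith
        · have h1 := log_rho_le (vals v) hne g hg x (fun i => by rw [vals_castSucc]; exact hx i)
          have hrho : (0 : ℝ) < (rho ∅ (∏ i, x i) : ℝ) := by exact_mod_cast rho_pos _ _
          have hsup := sup_le hr v X hv1
          have hsup0 : 0 < (univ.sup fun i => (vals v i).natAbs : ℕ) := by
            have h2 := Finset.le_sup (f := fun i => (vals v i).natAbs) (mem_univ (Fin.last r))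
            have h3 : 0 < (vals v (Fin.last r)).natAbs := Int.natAbs_pos.2 (hne _)
            exact lt_of_lt_of_le h3 h2
          have h2 : hgt (vals v) ≤ Real.log ((r : ℝ) * X) - Real.log g := by
            unfold hgt
            refine sub_le_sub_right (Real.log_le_log (by exact_mod_cast hsup0) ?_) _
            exact_mod_cast hsup
          have h3 : Real.log (rho ∅ (∏ i, x i) : ℝ) ≤
              κ * (Real.log ((r : ℝ) * X) - Real.log g) := by
            refine (h1.trans hlt.le).trans ?_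
            exact mul_le_mul_of_nonneg_left h2 (by linarith)
          rw [← Real.exp_log hrho, Real.rpow_def_of_pos (by positivity),
            Real.rpow_def_of_pos hgpos, ← Real.exp_add, Real.exp_le_exp]
          refine h3.trans (le_of_eq ?_)
          ring
      · funext k
        exact (hx k).symm
  have h1 : (#(Vec (fun _ : Fin r => X) (Bad κ)) : ℝ) ≤ ∑ g ∈ Icc 1 X, (#(A g) : ℝ) := by
    have h2 := (card_le_card hsub).trans card_biUnion_le
    have h3 : ∑ g ∈ Icc 1 X, #((A g).image (fun x : Fin r → ℤ => (fun k => (g : ℤ) * x k))) ≤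
        ∑ g ∈ Icc 1 X, #(A g) := sum_le_sum (fun g _ => card_image_le)
    exact_mod_cast h2.trans h3
  have h2 : ∀ g ∈ Icc 1 X, (#(A g) : ℝ) ≤
      C * (r : ℝ) ^ κ * (X : ℝ) ^ (κ + η) * (g : ℝ) ^ (-(1 + η1)) := by
    intro g hg
    rw [mem_Icc] at hg
    have hg0 : (0 : ℝ) < g := by exact_mod_cast hg.1
    have hg1 : (1 : ℝ) ≤ g := by exact_mod_cast hg.1
    have h3 := htup (fun _ : Fin r => X) (((r : ℝ) * X) ^ κ * (g : ℝ) ^ (-κ)) (fun _ => hX)
      (by positivity)
    refine h3.trans ?_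
    have h4 : (((∏ _i : Fin r, X) : ℕ) : ℝ) ^ η1 = (X : ℝ) ^ (r * η1) := by
      rw [prod_const, card_univ, Fintype.card_fin]
      push_cast
      rw [← Real.rpow_natCast, ← Real.rpow_mul hX0.le]
    rw [h4, Real.mul_rpow hr0.le hX0.le]
    have h5 : (g : ℝ) ^ (-κ) ≤ (X : ℝ) ^ η1 * (g : ℝ) ^ (-(1 + η1)) := by
      calc (g : ℝ) ^ (-κ) ≤ (g : ℝ) ^ (-(1 : ℝ)) :=
            Real.rpow_le_rpow_of_exponent_le hg1 (by linarith)
        _ = (g : ℝ) ^ η1 * (g : ℝ) ^ (-(1 + η1)) := by
            rw [← Real.rpow_add hg0]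
            congr 1
            ring
        _ ≤ _ := by
            refine mul_le_mul_of_nonneg_right ?_ (by positivity)
            exact Real.rpow_le_rpow hg0.le (by exact_mod_cast hg.2) hη1.le
    have h6 : (X : ℝ) ^ (κ + η) = (X : ℝ) ^ κ * ((X : ℝ) ^ (r * η1) * (X : ℝ) ^ η1) := by
      rw [← Real.rpow_add hX0, ← Real.rpow_add hX0]
      congr 1
      rw [hη1']
      field_simp
    rw [h6]
    calc C * ((r : ℝ) ^ κ * (X : ℝ) ^ κ * (g : ℝ) ^ (-κ)) * (X : ℝ) ^ (r * η1)
        ≤ C * ((r : ℝ) ^ κ * (X : ℝ) ^ κ * ((X : ℝ) ^ η1 * (g : ℝ) ^ (-(1 + η1)))) *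
          (X : ℝ) ^ (r * η1) := by gcongr
      _ = _ := by ring
  refine h1.trans ((sum_le_sum h2).trans ?_)
  rw [← mul_sum]
  have h4 : ∑ g ∈ Icc 1 X, (g : ℝ) ^ (-(1 + η1)) ≤ S2 :=
    hs.sum_le_tsum _ (fun g _ => by positivity)
  have h5 : 0 ≤ C * (r : ℝ) ^ κ * (X : ℝ) ^ (κ + η) := by positivity
  calc C * (r : ℝ) ^ κ * (X : ℝ) ^ (κ + η) * ∑ g ∈ Icc 1 X, (g : ℝ) ^ (-(1 + η1))
      ≤ C * (r : ℝ) ^ κ * (X : ℝ) ^ (κ + η) * (S2 + 1) :=
        mul_le_mul_of_nonneg_left (by linarith) h5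
    _ = _ := by ring

end Pool.Agent.Q35.AV
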