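import Mathlib
import Pool.Agent.Q35.AV.Cnt

set_option autoImplicit false

namespace Pool.Agent.Q35.AV

open Finset MvPolynomial
open Pool.Agent.Q256.CI Pool.Agent.Q256.VT Pool.Agent.Q256.VS Pool.Agent.Q256.VG

/-- the systems `(G, F)` for which the point `(F_1(y) : … : F_r(y) : -∑ F_i(y))` at some `y ∈ 𝒴`
with `G_j(y) = 0`, cut out by hyperplanes with coefficients at most `T`, has only nonzero
coordinates and violates the inequality `rad ≥ κ hgt`. -/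
def FailsN {n s r : ℕ} (e : Fin s → ℕ) (d : ℕ) (𝒴 : Set (Fin (n + 1) → ℤ)) (H T : ℕ) (κ : ℝ) :
    Set (Sys n s r) :=
  {P | InBox e (fun _ => d) H P ∧ ∃ y ∈ 𝒴, CutOut T (fun k => (y k : ℚ)) ∧
    (∀ j, eval y (P.1 j) = 0) ∧ (∀ i, vals (fun i => eval y (P.2 i)) i ≠ 0) ∧
      rad (vals fun i => eval y (P.2 i)) < κ * hgt (vals fun i => eval y (P.2 i))}

theorem failsN {n s r : ℕ} (hr : 1 ≤ r) (e : Fin s → ℕ) (d : ℕ)
    (𝒴 : Set (Fin (n + 1) → ℤ)) (hprim : ∀ y ∈ 𝒴, Prim y) (w : (Fin (n + 1) → ℤ) → ℝ)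
    (hw : Conv 𝒴 w) (γ c₁ : ℝ) (hγ : ∀ y ∈ 𝒴, w y ≤ γ * ht y + c₁) (κ : ℝ)
    (hκ1 : 1 ≤ κ) (hκ : γ - (∑ j, (e j : ℝ)) < (r - κ) * d) (ε : ℝ) (hε : 0 < ε) :
    ∃ C : ℝ, ∀ (H T : ℕ), 1 ≤ T → H ≤ T →
      (Nat.card (FailsN (n := n) (r := r) e d 𝒴 H T κ) : ℝ) ≤ C * (T : ℝ) ^
        ((∑ j, ((n + e j).choose n : ℝ)) + r * ((n + d).choose n : ℝ) - (s + r - κ) + ε) := by
  classical
  set ε1 : ℝ := (r - κ) * d - (γ - (∑ j, (e j : ℝ))) with hε1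
  have hε10 : 0 < ε1 := by rw [hε1]; linarith
  have hd0 : (0 : ℝ) ≤ d := Nat.cast_nonneg d
  set η : ℝ := min ε (ε1 / (2 * (d + 1))) with hη
  have hη0 : 0 < η := lt_min hε (by positivity)
  have hη1 : η ≤ ε := min_le_left _ _
  have hη2 : d * η ≤ ε1 / 2 := by
    have h1 : η ≤ ε1 / (2 * (d + 1)) := min_le_right _ _
    have h2 : (d : ℝ) * η ≤ d * (ε1 / (2 * (d + 1))) := mul_le_mul_of_nonneg_left h1 hd0
    refine h2.trans ?_
    rw [mul_div_assoc', div_le_div_iff₀ (by positivity) (by norm_num)]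
    nlinarith
  obtain ⟨C1, hC1, hmain⟩ := main_countV (n := n) (s := s) (r := r) e (fun _ => d) 𝒴 hprim w hw
    (ε1 / 2) (by positivity)
  obtain ⟨C2, hC2, hbad⟩ := card_bad r hr κ hκ1 η hη0
  set c0 : ℕ := (n + d).choose n with hc0
  have hc0' : 1 ≤ c0 := Nat.choose_pos (Nat.le_add_right _ _)
  refine ⟨C1 * (C2 * (c0 : ℝ) ^ (κ + η) * Real.exp c₁), fun H T hT hHT => ?_⟩
  have hTr : (1 : ℝ) ≤ T := by exact_mod_cast hT
  have hT0 : (0 : ℝ) < T := by linarith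
  set lam : ℝ := C2 * (c0 : ℝ) ^ (κ + η) * Real.exp c₁ * (T : ℝ) ^ (κ + η) with hlam
  have hlam0 : 0 ≤ lam := by positivity
  have h1 := hmain lam H T (fun _ => Bad κ) hlam0 hT hHT (by
    intro y hy
    have hq1 : 1 ≤ qq y := qq_pos y (hprim y hy).ne
    have hq1r : (1 : ℝ) ≤ ((qq y : ℕ) : ℝ) := by exact_mod_cast hq1
    have hq0 : (0 : ℝ) < ((qq y : ℕ) : ℝ) := by linarith
    have e0 : siz n (fun _ : Fin r => d) T (qq y) = fun _ => c0 * (T * qq y ^ d) := rfl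
    rw [e0]
    have hX0 : 1 ≤ c0 * (T * qq y ^ d) := Nat.one_le_iff_ne_zero.2 (by positivity)
    refine (hbad _ hX0).trans ?_
    have f1 : ((c0 * (T * qq y ^ d) : ℕ) : ℝ) ^ (κ + η) =
        (c0 : ℝ) ^ (κ + η) * ((T : ℝ) ^ (κ + η) * ((qq y : ℕ) : ℝ) ^ (d * (κ + η))) := by
      push_cast
      rw [Real.mul_rpow (by positivity) (by positivity),
        Real.mul_rpow (by positivity) (by positivity), ← Real.rpow_natCast ((qq y : ℕ) : ℝ) d,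
        ← Real.rpow_mul hq0.le]
    have f2 : ((qq y : ℕ) : ℝ) ^ (d * (κ + η)) ≤ Real.exp c₁ *
        (((qq y : ℕ) : ℝ) ^ ((∑ j, (e j : ℝ)) + (∑ _i : Fin r, (d : ℝ)) - ε1 / 2) *
          Real.exp (-w y)) := by
      have hw1 := hγ y hy
      have hht : 0 ≤ ht y := Real.log_nonneg hq1r
      rw [Real.rpow_def_of_pos hq0, Real.rpow_def_of_pos hq0, ← Real.exp_add, ← Real.exp_add,
        Real.exp_le_exp, sum_const, card_univ, Fintype.card_fin, nsmul_eq_mul]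
      change ht y * _ ≤ c₁ + (ht y * _ + -w y)
      have h2 : ht y * (d * (κ + η)) ≤ ht y * (((∑ j, (e j : ℝ)) + r * d - ε1 / 2) - γ) := by
        refine mul_le_mul_of_nonneg_left ?_ hht
        rw [hε1] at hη2 ⊢
        nlinarith
      nlinarith
    rw [f1]
    calc C2 * ((c0 : ℝ) ^ (κ + η) * ((T : ℝ) ^ (κ + η) * ((qq y : ℕ) : ℝ) ^ (d * (κ + η))))
        = (C2 * (c0 : ℝ) ^ (κ + η) * (T : ℝ) ^ (κ + η)) *
            ((qq y : ℕ) : ℝ) ^ (d * (κ + η)) := by ring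
      _ ≤ (C2 * (c0 : ℝ) ^ (κ + η) * (T : ℝ) ^ (κ + η)) * (Real.exp c₁ *
        (((qq y : ℕ) : ℝ) ^ ((∑ j, (e j : ℝ)) + (∑ _i : Fin r, (d : ℝ)) - ε1 / 2) *
          Real.exp (-w y))) := mul_le_mul_of_nonneg_left f2 (by positivity)
      _ = _ := by rw [hlam]; ring)
  refine le_trans (le_of_eq rfl) (h1.trans ?_)
  rw [hlam, sum_const, card_univ, Fintype.card_fin, nsmul_eq_mul]
  have h2 : (T : ℝ) ^ (κ + η) * (T : ℝ) ^
      ((∑ j, ((n + e j).choose n : ℝ)) + r * ((c0 : ℕ) : ℝ) - (s + r)) ≤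
      (T : ℝ) ^ ((∑ j, ((n + e j).choose n : ℝ)) + r * (c0 : ℝ) - (s + r - κ) + ε) := by
    rw [← Real.rpow_add hT0]
    refine Real.rpow_le_rpow_of_exponent_le hTr ?_
    linarith
  calc C1 * (C2 * (c0 : ℝ) ^ (κ + η) * Real.exp c₁ * (T : ℝ) ^ (κ + η)) *
        (T : ℝ) ^ ((∑ j, ((n + e j).choose n : ℝ)) + r * ((c0 : ℕ) : ℝ) - (s + r))
      = C1 * (C2 * (c0 : ℝ) ^ (κ + η) * Real.exp c₁) * ((T : ℝ) ^ (κ + η) *
        (T : ℝ) ^ ((∑ j, ((n + e j).choose n : ℝ)) + r * ((c0 : ℕ) : ℝ) - (s + r))) := by ring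
    _ ≤ _ := mul_le_mul_of_nonneg_left h2 (by positivity)

end Pool.Agent.Q35.AV
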